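import Pool.Agent.Results.MP_83ab87_co.NotDense

/-!
# The infinite graphs are not complete under the asymptotic spectrum distance

The class `GInf`, cohomomorphisms `Cohom`, the strong product `strong`, the operations `GInf.sum`
and `GInf.prod`, the edgeless graphs `E n`, the spectral points `IsSpectral` and the asymptotic
spectrum distance `dist` are those of the imported file.

Let `S(b, j)` be the shift graph whose vertices are the windows `a 0 < a 1 < ... < a j < b`, and
choose `f j` so large that `S(f j, j)` has no proper colouring with `j` colours.  Let `G n` be the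
complement of the disjoint union over `j ≥ n` of the tensor products `S(f j, j) x K_3`.

* Key lemma: if finitely many vertex sets `A t` cover every vertex of `G` at least a fraction `q` of
  the time, and `G` restricted to each `A t` is below `G'`, then `q * F G ≤ F G'` for every
  spectral point `F`.  (Pass to the `N`-th power, cover the words by few product sets, let `N` tend
  to infinity.)
* For a random labelling of `{0, ..., b - 1}` the windows whose largest label is in the interior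
  induce a bipartite graph, and a window of length `j + 1` is of this kind with probability
  `1 - 2 / (j + 1)`.  So the sequence `G n` is Cauchy.
* The fractional clique covering number with finitely many cliques is `3` at all `G n`, and the
  supremum of the fractional clique covering numbers of the finite graphs below tends to `2`.
* If the second is at most `2` at some `H`, the complement of `H` has no closed odd walk, so it is
  bipartite and the first is at most `2` at `H` too.  So the sequence has no limit.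
-/

set_option autoImplicit false

open Finset Filter Topology
open Pool.Agent.Results.MP_83ab87_co
open Pool.Agent.Results.MP_83ab87_co.NotDense

namespace Pool.Agent.Results.MP_d03f2b_co.NotComplete

/-! ### A covering lemma -/

open Classical in
/-- greedy covering -/
theorem greedy {Ω W : Type} [Fintype Ω] [Nonempty Ω] [Fintype W] (good : Ω → W → Prop) {p : ℝ}
    (hp1 : p ≤ 1)
    (hgood : ∀ w, p * Fintype.card Ω ≤ ((univ.filter fun ω => good ω w).card : ℝ)) (c : ℕ) :
    ∃ s : Fin c → Ω, ((univ.filter fun w => ∀ i, ¬ good (s i) w).card : ℝ) ≤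
      (1 - p) ^ c * Fintype.card W := by
  induction c with
  | zero =>
    refine ⟨fun i => i.elim0, ?_⟩
    simp
  | succ c ih =>
    obtain ⟨s, hs⟩ := ih
    set U : Finset W := univ.filter fun w => ∀ i, ¬ good (s i) w with hU
    have hsum : ∑ ω : Ω, ((U.filter fun w => good ω w).card : ℝ) =
        ∑ w ∈ U, ((univ.filter fun ω => good ω w).card : ℝ) := by
      have := Finset.sum_card_bipartiteAbove_eq_sum_card_bipartiteBelow
        (s := (univ : Finset Ω)) (t := U) good
      simp only [Finset.bipartiteAbove, Finset.bipartiteBelow] at this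
      exact_mod_cast this
    have hlow : p * Fintype.card Ω * U.card ≤ ∑ ω : Ω, ((U.filter fun w => good ω w).card : ℝ) := by
      rw [hsum]
      calc p * Fintype.card Ω * U.card = ∑ w ∈ U, p * Fintype.card Ω := by
            rw [Finset.sum_const, nsmul_eq_mul]; ring
        _ ≤ _ := Finset.sum_le_sum fun w _ => hgood w
    have hex : ∃ ω : Ω, p * U.card ≤ ((U.filter fun w => good ω w).card : ℝ) := by
      by_contra hcon
      push Not at hcon
      have h1 : ∑ ω : Ω, ((U.filter fun w => good ω w).card : ℝ) < ∑ ω : Ω, p * U.card :=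
        Finset.sum_lt_sum_of_nonempty univ_nonempty fun ω _ => hcon ω
      rw [Finset.sum_const, nsmul_eq_mul, Finset.card_univ] at h1
      linarith
    obtain ⟨ω, hω⟩ := hex
    refine ⟨Fin.snoc s ω, ?_⟩
    have h2 : (univ.filter fun w => ∀ i, ¬ good ((Fin.snoc s ω : Fin (c + 1) → Ω) i) w) =
        U.filter fun w => ¬ good ω w := by
      ext w
      simp only [hU, mem_filter, mem_univ, true_and]
      rw [Fin.forall_fin_succ']
      simp
    rw [h2]
    have h3 : ((U.filter fun w => good ω w).card : ℝ) + ((U.filter fun w => ¬ good ω w).card : ℝ) =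
        U.card := by
      exact_mod_cast Finset.card_filter_add_card_filter_not (s := U) (fun w => good ω w)
    have h4 : (1 - p) * U.card ≤ (1 - p) * ((1 - p) ^ c * Fintype.card W) :=
      mul_le_mul_of_nonneg_left hs (by linarith)
    rw [pow_succ]
    linarith

/-- the limit argument -/
theorem lim {r s L : ℝ} (hs : 0 ≤ s) (h : ∀ N : ℕ, 0 < N → r ^ N ≤ (N * L + 2) * s ^ N) :
    r ≤ s := by
  by_contra hcon
  push Not at hcon
  have hr : 0 < r := hs.trans_lt hcon
  rcases hs.eq_or_lt with rfl | hs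
  · have := h 1 one_pos
    simp at this
    linarith
  · have h1 : 1 < r / s := (one_lt_div hs).2 hcon
    have h2 := tendsto_pow_const_div_const_pow_of_one_lt 1 h1
    have h3 := tendsto_pow_const_div_const_pow_of_one_lt 0 h1
    have h4 : Tendsto (fun n : ℕ => L * ((n : ℝ) ^ 1 / (r / s) ^ n) + 2 * ((n : ℝ) ^ 0 / (r / s) ^ n))
        atTop (𝓝 (L * 0 + 2 * 0)) := (h2.const_mul L).add (h3.const_mul 2)
    rw [mul_zero, mul_zero, add_zero] at h4
    have h5 := (h4.eventually (gt_mem_nhds (zero_lt_one))).and (eventually_gt_atTop 0)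
    obtain ⟨N, hN, hN0⟩ := h5.exists
    have h6 := h N hN0
    have h7 : 0 < (r / s) ^ N := by positivity
    have h8 : (L * ((N : ℝ) ^ 1 / (r / s) ^ N) + 2 * ((N : ℝ) ^ 0 / (r / s) ^ N)) * (r / s) ^ N =
        N * L + 2 := by
      field_simp
    have h9 : N * L + 2 < (r / s) ^ N := by
      rw [← h8]
      calc _ < 1 * (r / s) ^ N := mul_lt_mul_of_pos_right hN h7
        _ = _ := one_mul _
    have h10 : (r / s) ^ N * s ^ N = r ^ N := by
      rw [← mul_pow, div_mul_cancel₀ _ hs.ne']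
    have h11 : (N * L + 2) * s ^ N < (r / s) ^ N * s ^ N :=
      mul_lt_mul_of_pos_right h9 (by positivity)
    linarith

/-! ### Powers -/

/-- the strong power -/
def powG {V : Type} (G : SimpleGraph V) (N : ℕ) : SimpleGraph (Fin N → V) where
  Adj x y := x ≠ y ∧ ∀ i, x i = y i ∨ G.Adj (x i) (y i)
  symm := ⟨fun _ _ h => ⟨h.1.symm, fun i => (h.2 i).imp Eq.symm (fun e => e.symm)⟩⟩
  loopless := ⟨fun _ h => h.1 rfl⟩

theorem powG_not {V : Type} {G : SimpleGraph V} {N : ℕ} {x y : Fin N → V} (h : x ≠ y)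
    (h' : ¬ (powG G N).Adj x y) : ∃ i, x i ≠ y i ∧ ¬ G.Adj (x i) (y i) := by
  by_contra hcon
  push Not at hcon
  exact h' ⟨h, fun i => or_iff_not_imp_left.2 (hcon i)⟩

theorem powG_of {V : Type} {G : SimpleGraph V} {N : ℕ} {x y : Fin N → V} {i : Fin N}
    (h : x i ≠ y i) (h' : ¬ G.Adj (x i) (y i)) : x ≠ y ∧ ¬ (powG G N).Adj x y :=
  ⟨fun e => h (congrFun e i), fun e => (e.2 i).elim h h'⟩

/-- the strong power in the class -/
def pw (G : GInf) (N : ℕ) : GInf where
  V := Fin N → G.V
  G := powG G.G N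
  card_le := by
    have h1 : Cardinal.mk (Fin N → G.V) = Cardinal.mk G.V ^ (N : ℕ) := by simp
    rw [h1]
    refine (pow_le_pow_left' G.card_le N).trans ?_
    exact_mod_cast Cardinal.power_nat_le (c := Cardinal.continuum) (n := N)
      Cardinal.aleph0_le_continuum
  cover := by
    obtain ⟨n, f, hf⟩ := G.cover
    have h1 : Cohom (powG G.G N) (⊥ : SimpleGraph (Fin N → Fin n)) := by
      refine ⟨fun x i => f (x i), fun x y h h' => ?_⟩
      obtain ⟨i, hi, hi'⟩ := powG_not h h'
      exact ⟨fun e => (hf _ _ hi hi').1 (congrFun e i), by simp⟩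
    obtain ⟨m, hm⟩ := cover_of_finite (⊥ : SimpleGraph (Fin N → Fin n))
    exact ⟨m, h1.trans hm⟩

theorem strong_not {V W : Type} {G : SimpleGraph V} {H : SimpleGraph W} {x y : V × W} (h : x ≠ y)
    (h' : ¬ (strong G H).Adj x y) :
    (x.1 ≠ y.1 ∧ ¬ G.Adj x.1 y.1) ∨ (x.2 ≠ y.2 ∧ ¬ H.Adj x.2 y.2) := by
  by_contra hcon
  push Not at hcon
  exact h' ⟨h, or_iff_not_imp_left.2 hcon.1, or_iff_not_imp_left.2 hcon.2⟩

theorem strong_of_left {V W : Type} {G : SimpleGraph V} {H : SimpleGraph W} {x y : V × W}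
    (h : x.1 ≠ y.1) (h' : ¬ G.Adj x.1 y.1) : x ≠ y ∧ ¬ (strong G H).Adj x y :=
  ⟨fun e => h (congrArg Prod.fst e), fun e => e.2.1.elim h h'⟩

theorem strong_of_right {V W : Type} {G : SimpleGraph V} {H : SimpleGraph W} {x y : V × W}
    (h : x.2 ≠ y.2) (h' : ¬ H.Adj x.2 y.2) : x ≠ y ∧ ¬ (strong G H).Adj x y :=
  ⟨fun e => h (congrArg Prod.snd e), fun e => e.2.2.elim h h'⟩

theorem pw_le (G : GInf) (N : ℕ) : Cohom (pw G (N + 1)).G ((pw G N).prod G).G := by
  refine ⟨fun x => (fun i => x i.castSucc, x (Fin.last N)), fun x y h h' => ?_⟩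
  obtain ⟨i, hi, hi'⟩ := powG_not h h'
  induction i using Fin.lastCases with
  | last => exact strong_of_right hi hi'
  | cast i =>
    have := powG_of (G := G.G) (x := fun i : Fin N => x i.castSucc)
      (y := fun i : Fin N => y i.castSucc) (i := i) hi hi'
    exact strong_of_left this.1 this.2

theorem strong_le_powG {V : Type} (G : SimpleGraph V) (N : ℕ) :
    Cohom (strong (powG G N) G) (powG G (N + 1)) := by
  let sn : (Fin N → V) × V → Fin (N + 1) → V := fun x => Fin.snoc (α := fun _ => V) x.1 x.2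
  have hc : ∀ x i, sn x (Fin.castSucc i) = x.1 i := fun x i => Fin.snoc_castSucc (α := fun _ => V) ..
  have hl : ∀ x, sn x (Fin.last N) = x.2 := fun x => Fin.snoc_last (α := fun _ => V) ..
  refine ⟨sn, fun x y h h' => ?_⟩
  rcases strong_not h h' with ⟨h1, h2⟩ | ⟨h1, h2⟩
  · obtain ⟨i, hi, hi'⟩ := powG_not h1 h2
    refine powG_of (i := i.castSucc) ?_ ?_
    · rw [hc, hc]
      exact hi
    · rw [hc, hc]
      exact hi'
  · refine powG_of (i := Fin.last N) ?_ ?_
    · rw [hl, hl]
      exact h1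
    · rw [hl, hl]
      exact h2

theorem le_pw (G : GInf) (N : ℕ) : Cohom ((pw G N).prod G).G (pw G (N + 1)).G :=
  strong_le_powG G.G N

theorem F_pw {F : GInf → ℝ} (hF : IsSpectral F) (G : GInf) (N : ℕ) : F (pw G N) = F G ^ N := by
  induction N with
  | zero =>
    rw [pow_zero]
    have h1 : F (pw G 0) = F (E 1) := by
      apply le_antisymm
      · refine hF.mono _ _ ⟨fun _ => (0 : Fin 1), fun x y h _ => (h ?_).elim⟩
        funext i
        exact i.elim0
      · refine hF.mono _ _ ⟨fun _ => (fun i => i.elim0 : Fin 0 → G.V), fun x y h _ => (h ?_).elim⟩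
        exact Subsingleton.elim (α := Fin 1) x y
    rw [h1, hF.one]
    simp
  | succ N ih =>
    rw [pow_succ, ← ih, ← hF.mul]
    exact le_antisymm (hF.mono _ _ (pw_le G N)) (hF.mono _ _ (le_pw G N))

/-! ### The key lemma -/

open Classical in
theorem key {G G' : GInf} {T : Type} [Fintype T] [Nonempty T] (A : T → G.V → Prop)
    (f : T → G.V → G'.V)
    (hf : ∀ t u v, A t u → A t v → u ≠ v → ¬ G.G.Adj u v →
      f t u ≠ f t v ∧ ¬ G'.G.Adj (f t u) (f t v)) {q : ℝ} (hq0 : 0 < q) (hq1 : q ≤ 1)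
    (hq : ∀ v, q * Fintype.card T ≤ ((univ.filter fun t => A t v).card : ℝ))
    {F : GInf → ℝ} (hF : IsSpectral F) : q * F G ≤ F G' := by
  let S := {S : Finset T // q * Fintype.card T ≤ (S.card : ℝ)}
  let ty : G.V → S := fun v => ⟨univ.filter fun t => A t v, hq v⟩
  have hcov : ∀ N : ℕ, 0 < N → ∃ c : ℕ, (q ^ N * c ≤ N * Real.log (Fintype.card S) + 2) ∧
      F G ^ N ≤ c * F G' ^ N := by
    intro N hN
    have hp0 : 0 < q ^ N := by positivity
    have hp1 : q ^ N ≤ 1 := pow_le_one₀ hq0.le hq1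
    obtain ⟨good, hgd⟩ : ∃ good : (Fin N → T) → (Fin N → S) → Prop,
      ∀ ω w, good ω w ↔ ∀ k, ω k ∈ (w k).1 := ⟨fun ω w => ∀ k, ω k ∈ (w k).1, fun _ _ => Iff.rfl⟩
    have hgood : ∀ w, q ^ N * Fintype.card (Fin N → T) ≤
        ((univ.filter fun ω => good ω w).card : ℝ) := by
      intro w
      have h1 : (univ.filter fun ω => good ω w) = Fintype.piFinset fun k => (w k).1 := by
        ext ω
        simp [hgd, Fintype.mem_piFinset]
      rw [h1, Fintype.card_piFinset, Fintype.card_fun, Fintype.card_fin]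
      push_cast
      rw [← mul_pow]
      calc (q * (Fintype.card T : ℝ)) ^ N = ∏ k : Fin N, (q * (Fintype.card T : ℝ)) := by simp
        _ ≤ _ := Finset.prod_le_prod (fun k _ => by positivity) fun k _ => (w k).2
    let c : ℕ := ⌊N * Real.log (Fintype.card S) / q ^ N⌋₊ + 1
    have hlog : 0 ≤ Real.log (Fintype.card S) := Real.log_natCast_nonneg _
    have hx0 : 0 ≤ N * Real.log (Fintype.card S) / q ^ N := by positivity
    refine ⟨c, ?_, ?_⟩
    · have h1 : (c : ℝ) ≤ N * Real.log (Fintype.card S) / q ^ N + 1 := by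
        simp only [c]
        push_cast
        linarith [Nat.floor_le hx0]
      calc q ^ N * (c : ℝ) ≤ q ^ N * (N * Real.log (Fintype.card S) / q ^ N + 1) :=
            mul_le_mul_of_nonneg_left h1 hp0.le
        _ = N * Real.log (Fintype.card S) + q ^ N := by field_simp
        _ ≤ _ := by linarith
    · obtain ⟨s, hs⟩ := greedy good hp1 hgood c
      have hall : ∀ w, ∃ i, good (s i) w := by
        by_contra hcon
        push Not at hcon
        obtain ⟨w, hw⟩ := hcon
        have h1 : 1 ≤ (univ.filter fun w => ∀ i, ¬ good (s i) w).card :=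
          Finset.card_pos.2 ⟨w, by simpa using hw⟩
        have h2 : (1 : ℝ) ≤ (1 - q ^ N) ^ c * Fintype.card (Fin N → S) :=
          le_trans (by exact_mod_cast h1) hs
        have hS : 0 < (Fintype.card S : ℝ) := by
          have : Nonempty S := ⟨w ⟨0, hN⟩⟩
          exact_mod_cast Fintype.card_pos
        have h3 : (1 - q ^ N) ^ c ≤ Real.exp (-(q ^ N * c)) := by
          calc (1 - q ^ N) ^ c ≤ (Real.exp (-(q ^ N))) ^ c :=
                pow_le_pow_left₀ (by linarith) (Real.one_sub_le_exp_neg _) c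
            _ = _ := by
              rw [← Real.exp_nat_mul]
              congr 1
              ring
        have h4 : (Fintype.card (Fin N → S) : ℝ) = Real.exp (N * Real.log (Fintype.card S)) := by
          rw [Fintype.card_fun, Fintype.card_fin, Real.exp_nat_mul, Real.exp_log hS]
          push_cast
          rfl
        have h5 : N * Real.log (Fintype.card S) < q ^ N * c := by
          have h6 := Nat.lt_floor_add_one (N * Real.log (Fintype.card S) / q ^ N)
          have h7 : N * Real.log (Fintype.card S) / q ^ N < c := by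
            simp only [c]
            push_cast
            exact h6
          rw [div_lt_iff₀ hp0] at h7
          linarith
        have h6 : (1 - q ^ N) ^ c * Fintype.card (Fin N → S) < 1 := by
          calc (1 - q ^ N) ^ c * (Fintype.card (Fin N → S) : ℝ) ≤
                Real.exp (-(q ^ N * c)) * Real.exp (N * Real.log (Fintype.card S)) := by
                rw [← h4]
                exact mul_le_mul_of_nonneg_right h3 (by positivity)
            _ = Real.exp (-(q ^ N * c) + N * Real.log (Fintype.card S)) := by rw [Real.exp_add]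
            _ < 1 := by
              rw [← Real.exp_zero]
              exact Real.exp_lt_exp.2 (by linarith)
        linarith
      choose col hcol using hall
      have hco : Cohom (pw G N).G ((E c).prod (pw G' N)).G := by
        refine ⟨fun x => (col fun k => ty (x k), fun k => f (s (col fun k => ty (x k)) k) (x k)),
          fun x y h h' => ?_⟩
        by_cases hc : (col fun k => ty (x k)) = (col fun k => ty (y k))
        · obtain ⟨i, hi, hi'⟩ := powG_not h h'
          have h1 : A (s (col fun k => ty (x k)) i) (x i) := by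
            have := (hgd _ _).1 (hcol (fun k => ty (x k))) i
            simpa [ty] using this
          have h2 : A (s (col fun k => ty (x k)) i) (y i) := by
            have := (hgd _ _).1 (hcol (fun k => ty (y k))) i
            rw [← hc] at this
            simpa [ty] using this
          have h3 := hf _ _ _ h1 h2 hi hi'
          have h4 := powG_of (G := G'.G)
            (x := fun k => f (s (col fun k => ty (x k)) k) (x k))
            (y := fun k => f (s (col fun k => ty (y k)) k) (y k)) (i := i)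
            (by rw [← hc]; exact h3.1) (by rw [← hc]; exact h3.2)
          exact strong_of_right h4.1 h4.2
        · refine strong_of_left hc ?_
          exact fun h => h
      have := hF.mono _ _ hco
      rwa [hF.mul, hF.one, F_pw hF, F_pw hF] at this
  refine lim (L := Real.log (Fintype.card S)) (hF.nonneg _) fun N hN => ?_
  obtain ⟨c, hc, hc'⟩ := hcov N hN
  have h1 : 0 ≤ F G' ^ N := pow_nonneg (hF.nonneg _) _
  calc (q * F G) ^ N = q ^ N * F G ^ N := mul_pow _ _ _
    _ ≤ q ^ N * (c * F G' ^ N) := mul_le_mul_of_nonneg_left hc' (by positivity)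
    _ = (q ^ N * c) * F G' ^ N := by ring
    _ ≤ _ := mul_le_mul_of_nonneg_right hc h1

/-! ### Shift graphs -/

/-- the window `a 0 < a 1 < ... < a j < b` -/
def Win (b j : ℕ) (a : ℕ → ℕ) : Prop := (∀ t < j, a t < a (t + 1)) ∧ a j < b

theorem Win.lt {b j : ℕ} {a : ℕ → ℕ} (h : Win b j a) {s t : ℕ} (hst : s < t) (ht : t ≤ j) :
    a s < a t := by
  induction t with
  | zero => omega
  | succ t ih =>
    have h1 := h.1 t (by omega)
    rcases Nat.lt_succ_iff_lt_or_eq.1 hst with h2 | rfl
    · exact (ih h2 (by omega)).trans h1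
    · exact h1

theorem Win.lt_b {b j : ℕ} {a : ℕ → ℕ} (h : Win b j a) {s : ℕ} (hs : s ≤ j) : a s < b := by
  rcases hs.eq_or_lt with rfl | hs
  · exact h.2
  · exact (h.lt hs le_rfl).trans h.2

theorem Win.inj {b j : ℕ} {a : ℕ → ℕ} (h : Win b j a) {s t : ℕ} (hs : s ≤ j) (ht : t ≤ j)
    (hst : a s = a t) : s = t := by
  rcases lt_trichotomy s t with h1 | h1 | h1
  · exact absurd hst (h.lt h1 ht).ne
  · exact h1
  · exact absurd hst (h.lt h1 hs).ne'

/-- the vertices -/
abbrev Vx : Type := ℕ × (ℕ → ℕ) × Fin 3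

/-- disjoint union of tensor products of shift graphs with the triangle -/
def K (f : ℕ → ℕ) (J : Set ℕ) : SimpleGraph Vx where
  Adj x y := x.1 = y.1 ∧ x.1 ∈ J ∧ Win (f x.1) x.1 x.2.1 ∧ Win (f y.1) y.1 y.2.1 ∧ x.2.2 ≠ y.2.2 ∧
    ((∀ t < x.1, x.2.1 (t + 1) = y.2.1 t) ∨ (∀ t < y.1, y.2.1 (t + 1) = x.2.1 t))
  symm := ⟨fun _ _ h => ⟨h.1.symm, h.1 ▸ h.2.1, h.2.2.2.1, h.2.2.1, h.2.2.2.2.1.symm,
    h.2.2.2.2.2.symm⟩⟩
  loopless := ⟨fun _ h => h.2.2.2.2.1 rfl⟩

/-- the complement -/
def Gr (f : ℕ → ℕ) (J : Set ℕ) : GInf where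
  V := Vx
  G := (K f J)ᶜ
  card_le := by
    simp
  cover := by
    refine ⟨3, fun x => x.2.2, fun x y hxy hadj => ⟨fun h => ?_, by simp⟩⟩
    apply hadj
    rw [SimpleGraph.compl_adj]
    exact ⟨hxy, fun h' => h'.2.2.2.2.1 h⟩

theorem Gr_adj {f : ℕ → ℕ} {J : Set ℕ} {x y : Vx} (h : x ≠ y) (h' : ¬ (Gr f J).G.Adj x y) :
    (K f J).Adj x y := by
  change ¬ (K f J)ᶜ.Adj x y at h'
  rw [SimpleGraph.compl_adj, not_and, not_not] at h'
  exact h' h

theorem Gr_of {f : ℕ → ℕ} {J : Set ℕ} {x y : Vx} (h : (K f J).Adj x y) :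
    x ≠ y ∧ ¬ (Gr f J).G.Adj x y := by
  refine ⟨h.ne, ?_⟩
  change ¬ (K f J)ᶜ.Adj x y
  rw [SimpleGraph.compl_adj, not_and, not_not]
  exact fun _ => h

/-- truncation -/
def tr (j : ℕ) (x : ℕ → ℕ) : ℕ → ℕ := fun t => if t ≤ j then x t else 0

theorem tr_le {j t : ℕ} (h : t ≤ j) (x : ℕ → ℕ) : tr j x t = x t := if_pos h

/-- shift graphs have large chromatic number -/
theorem shiftk (j : ℕ) : ∀ (κ : Type) [Finite κ], ∃ b, ∀ c : (ℕ → ℕ) → κ, ∃ x : ℕ → ℕ,
    (∀ t ≤ j, x t < x (t + 1)) ∧ x (j + 1) < b ∧ c (tr j x) = c (tr j fun t => x (t + 1)) := by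
  induction j with
  | zero =>
    intro κ _
    have := Fintype.ofFinite κ
    refine ⟨Fintype.card κ + 1, fun c => ?_⟩
    obtain ⟨m, n, hmn, h⟩ := Fintype.exists_ne_map_eq_of_card_lt
      (fun m : Fin (Fintype.card κ + 1) => c (tr 0 fun _ => m)) (by simp)
    have main : ∀ m n : Fin (Fintype.card κ + 1), m < n →
        c (tr 0 fun _ => m) = c (tr 0 fun _ => n) → ∃ x : ℕ → ℕ,
        (∀ t ≤ 0, x t < x (t + 1)) ∧ x (0 + 1) < Fintype.card κ + 1 ∧
        c (tr 0 x) = c (tr 0 fun t => x (t + 1)) := by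
      intro m n hmn h
      refine ⟨fun t => if t = 0 then m else n, ?_, ?_, ?_⟩
      · intro t ht
        obtain rfl : t = 0 := by omega
        simpa using hmn
      · simpa using n.2
      · have h1 : (tr 0 fun t => if t = 0 then (m : ℕ) else n) = tr 0 fun _ => m := by
          funext t
          by_cases ht : t = 0 <;> simp [tr, ht]
        rw [h1, h]
        congr 1
    rcases lt_or_gt_of_ne hmn with h1 | h1
    · exact main m n h1 h
    · exact main n m h1 h.symm
  | succ j ih =>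
    intro κ _
    obtain ⟨b, hb⟩ := ih (Set κ)
    refine ⟨b, fun c => ?_⟩
    obtain ⟨x, hx, hxb, hc⟩ := hb fun y =>
      {k | ∃ v, y j < v ∧ v < b ∧ c (tr (j + 1) (Function.update y (j + 1) v)) = k}
    have h1 : c (tr (j + 1) x) ∈ {k | ∃ v, (tr j x) j < v ∧ v < b ∧
        c (tr (j + 1) (Function.update (tr j x) (j + 1) v)) = k} := by
      refine ⟨x (j + 1), ?_, hxb, ?_⟩
      · simpa [tr] using hx j le_rfl
      · congr 1
        funext t
        simp only [tr]
        by_cases h2 : t ≤ j + 1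
        · rw [if_pos h2, if_pos h2]
          by_cases h3 : t = j + 1
          · subst h3
            simp
          · rw [Function.update_of_ne h3, tr_le (by omega)]
        · rw [if_neg h2, if_neg h2]
    rw [hc] at h1
    obtain ⟨v, hv, hvb, hvc⟩ := h1
    refine ⟨Function.update x (j + 2) v, ?_, ?_, ?_⟩
    · intro t ht
      by_cases h2 : t = j + 1
      · subst h2
        rw [Function.update_self, Function.update_of_ne (by omega)]
        simpa [tr] using hv
      · rw [Function.update_of_ne (by omega), Function.update_of_ne (by omega)]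
        exact hx t (by omega)
    · rw [Function.update_self]
      exact hvb
    · have h2 : tr (j + 1) (Function.update x (j + 2) v) = tr (j + 1) x := by
        funext t
        simp only [tr]
        by_cases h2 : t ≤ j + 1
        · rw [if_pos h2, if_pos h2, Function.update_of_ne (by omega)]
        · rw [if_neg h2, if_neg h2]
      rw [h2, ← hvc]
      congr 1
      funext t
      simp only [tr]
      by_cases h3 : t ≤ j + 1
      · rw [if_pos h3, if_pos h3]
        by_cases h4 : t = j + 1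
        · subst h4
          simp
        · rw [Function.update_of_ne h4, tr_le (by omega), Function.update_of_ne (by omega)]
      · rw [if_neg h3, if_neg h3]

/-- the bounds used -/
theorem exists_f : ∃ f : ℕ → ℕ, ∀ j, ∀ c : (ℕ → ℕ) → Fin j, ∃ x : ℕ → ℕ,
    (∀ t ≤ j, x t < x (t + 1)) ∧ x (j + 1) < f j ∧ c (tr j x) = c (tr j fun t => x (t + 1)) := by
  have := fun j => shiftk j (Fin j)
  choose f hf using this
  exact ⟨f, hf⟩

theorem edge {f : ℕ → ℕ} {J : Set ℕ} {j : ℕ} (hj : j ∈ J) {x : ℕ → ℕ}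
    (hx : ∀ t ≤ j, x t < x (t + 1)) (hxf : x (j + 1) < f j) {i i' : Fin 3} (hi : i ≠ i') :
    (K f J).Adj (j, tr j x, i) (j, tr j fun t => x (t + 1), i') := by
  refine ⟨rfl, hj, ⟨fun t ht => ?_, ?_⟩, ⟨fun t ht => ?_, ?_⟩, hi, Or.inl fun t ht => ?_⟩
  · change t < j at ht
    simpa [tr, ht.le, Nat.succ_le_of_lt ht] using hx t ht.le
  · simpa [tr] using (hx j le_rfl).trans hxf
  · change t < j at ht
    simpa [tr, ht.le, Nat.succ_le_of_lt ht] using hx (t + 1) ht
  · simpa [tr] using hxf
  · change t < j at ht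
    simp [tr, ht.le, Nat.succ_le_of_lt ht]

theorem Fb_Gr {f : ℕ → ℕ} (hf : ∀ j, ∀ c : (ℕ → ℕ) → Fin j, ∃ x : ℕ → ℕ,
    (∀ t ≤ j, x t < x (t + 1)) ∧ x (j + 1) < f j ∧ c (tr j x) = c (tr j fun t => x (t + 1)))
    {J : Set ℕ} (hJ : ∀ n, ∃ j, n ≤ j ∧ j ∈ J) : 3 ≤ Fb (Gr f J) := by
  classical
  refine le_P (Gr f J).isCov ?_
  rintro τ ⟨ι, hι, C, w, hC, hw, hcov, rfl⟩
  have : Fintype (ι → Set (Fin 3)) := Fintype.ofFinite _
  obtain ⟨j, hj, hjJ⟩ := hJ (Fintype.card (ι → Set (Fin 3)))
  let em : (ι → Set (Fin 3)) → Fin j := fun z => Fin.castLE hj (Fintype.equivFin _ z)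
  have hem : Function.Injective em := fun z z' h =>
    (Fintype.equivFin _).injective (Fin.castLE_injective hj h)
  obtain ⟨x, hx, hxf, hc⟩ := hf j fun a => em fun l => {i | ((j, a, i) : Vx) ∈ C l}
  have h := hem hc
  have := pack (n := 3) hw hcov (fun i => ((j, tr j x, i) : Vx)) ?_
  · exact_mod_cast this
  · intro l i i' hi hi'
    by_contra hne
    have h1 : i' ∈ {i | ((j, tr j x, i) : Vx) ∈ C l} := hi'
    have h2 := congrFun h l
    rw [h2] at h1
    have h3 := edge (f := f) hjJ hx hxf hne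
    exact (Gr_of h3).2 (hC l hi h1 h3.ne)

/-! ### Windows with an interior maximum -/

/-- the largest label of the window occurs at position `t` -/
def Top (u a : ℕ → ℕ) (j t : ℕ) : Prop := t ≤ j ∧ ∀ s ≤ j, u (a s) ≤ u (a t)

theorem exists_top (u a : ℕ → ℕ) (j : ℕ) : ∃ t, Top u a j t := by
  obtain ⟨t, ht, h⟩ := Finset.exists_max_image (range (j + 1)) (fun s => u (a s)) ⟨0, by simp⟩
  exact ⟨t, Nat.lt_succ_iff.1 (mem_range.1 ht), fun s hs => h s (mem_range.2 (Nat.lt_succ_of_le hs))⟩

/-- the labels given by a permutation -/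
def lab {M : ℕ} (σ : Equiv.Perm (Fin M)) (x : ℕ) : ℕ := if h : x < M then (σ ⟨x, h⟩ : ℕ) else 0

theorem lab_inj {M : ℕ} (σ : Equiv.Perm (Fin M)) {x y : ℕ} (hx : x < M) (hy : y < M)
    (h : lab σ x = lab σ y) : x = y := by
  simp only [lab, dif_pos hx, dif_pos hy] at h
  have := σ.injective (Fin.ext h)
  exact congrArg Fin.val this

theorem top_unique {M b : ℕ} (σ : Equiv.Perm (Fin M)) {a : ℕ → ℕ} {j t t' : ℕ} (ha : Win b j a)
    (hb : b ≤ M) (h : Top (lab σ) a j t) (h' : Top (lab σ) a j t') : t = t' := by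
  have h1 := le_antisymm (h.2 t' h'.1) (h'.2 t h.1)
  have h2 := lab_inj σ ((ha.lt_b h'.1).trans_le hb) ((ha.lt_b h.1).trans_le hb) h1
  exact (ha.inj h'.1 h.1 h2).symm

/-- for adjacent windows with interior maximum the positions differ by one -/
theorem flip {M b : ℕ} (σ : Equiv.Perm (Fin M)) {a a' : ℕ → ℕ} {j t t' : ℕ} (ha : Win b j a)
    (hb : b ≤ M) (hs : ∀ s < j, a (s + 1) = a' s) (ht0 : 0 < t) (h : Top (lab σ) a j t)
    (ht' : t' < j) (h' : Top (lab σ) a' j t') : t = t' + 1 := by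
  have h1 := h.2 (t' + 1) (by omega)
  have h2 := h'.2 (t - 1) (by have := h.1; omega)
  rw [← hs t' ht', ← hs (t - 1) (by have := h.1; omega), Nat.sub_add_cancel ht0] at h2
  have h3 := lab_inj σ ((ha.lt_b (by omega)).trans_le hb) ((ha.lt_b h.1).trans_le hb)
    (le_antisymm h1 h2)
  exact (ha.inj (by omega) h.1 h3).symm

open Classical in
theorem perm_count {M k : ℕ} (x : Fin k → Fin M) (hx : Function.Injective x) (t : Fin k) :
    k * (univ.filter fun σ : Equiv.Perm (Fin M) => ∀ s, σ (x s) ≤ σ (x t)).card ≤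
      Fintype.card (Equiv.Perm (Fin M)) := by
  let S : Fin k → Finset (Equiv.Perm (Fin M)) := fun t => univ.filter fun σ => ∀ s, σ (x s) ≤ σ (x t)
  have hle : ∀ s t, (S s).card ≤ (S t).card := by
    intro s t
    refine Finset.card_le_card_of_injOn (fun σ => σ * Equiv.swap (x s) (x t)) ?_ ?_
    · intro σ hσ
      simp only [S, coe_filter, mem_univ, true_and, Set.mem_ofPred_eq] at hσ ⊢
      intro r
      simp only [Equiv.Perm.mul_apply, Equiv.swap_apply_right]
      have : ∃ r', Equiv.swap (x s) (x t) (x r) = x r' := by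
        by_cases h1 : r = s
        · exact ⟨t, by rw [h1, Equiv.swap_apply_left]⟩
        · by_cases h2 : r = t
          · exact ⟨s, by rw [h2, Equiv.swap_apply_right]⟩
          · exact ⟨r, Equiv.swap_apply_of_ne_of_ne (fun e => h1 (hx e)) fun e => h2 (hx e)⟩
      obtain ⟨r', hr'⟩ := this
      rw [hr']
      exact hσ r'
    · intro σ _ τ _ h
      exact mul_right_cancel h
  have hdis : ∀ s ∈ (univ : Finset (Fin k)), ∀ t ∈ (univ : Finset (Fin k)), s ≠ t →
      Disjoint (S s) (S t) := by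
    intro s _ t _ hst
    rw [Finset.disjoint_left]
    intro σ h1 h2
    simp only [S, mem_filter, mem_univ, true_and] at h1 h2
    exact hst (hx (σ.injective (le_antisymm (h2 s) (h1 t))))
  calc k * (S t).card = ∑ s : Fin k, (S t).card := by simp
    _ ≤ ∑ s : Fin k, (S s).card := Finset.sum_le_sum fun s _ => hle t s
    _ = (univ.biUnion S).card := (Finset.card_biUnion hdis).symm
    _ ≤ _ := Finset.card_le_univ _

open Classical in
theorem top_count {M b j : ℕ} {a : ℕ → ℕ} (ha : Win b j a) (hb : b ≤ M) {t : ℕ} (ht : t ≤ j) :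
    (j + 1) * (univ.filter fun σ : Equiv.Perm (Fin M) => Top (lab σ) a j t).card ≤
      Fintype.card (Equiv.Perm (Fin M)) := by
  have hlt : ∀ s : Fin (j + 1), a s < M := fun s =>
    (ha.lt_b (Nat.lt_succ_iff.1 s.2)).trans_le hb
  let x : Fin (j + 1) → Fin M := fun s => ⟨a s, hlt s⟩
  have hx : Function.Injective x := by
    intro s s' h
    exact Fin.ext (ha.inj (Nat.lt_succ_iff.1 s.2) (Nat.lt_succ_iff.1 s'.2) (congrArg Fin.val h))
  have h1 := perm_count x hx ⟨t, Nat.lt_succ_of_le ht⟩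
  refine le_trans (Nat.mul_le_mul_left _ (Finset.card_le_card ?_)) h1
  intro σ hσ
  simp only [mem_filter, mem_univ, true_and] at hσ ⊢
  intro s
  have h2 := hσ.2 s (Nat.lt_succ_iff.1 s.2)
  have h3 : a t < M := hlt ⟨t, Nat.lt_succ_of_le ht⟩
  simp only [lab, dif_pos (hlt s), dif_pos h3] at h2
  exact h2

open Classical in
/-- most labellings have the maximum in the interior -/
theorem interior_count {M b j n : ℕ} {a : ℕ → ℕ} (ha : Win b j a) (hb : b ≤ M) (hn : n ≤ j)
    (X : Finset (Equiv.Perm (Fin M)))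
    (hX : ∀ σ t, 0 < t → t < j → Top (lab σ) a j t → σ ∈ X) :
    (1 - 2 / ((n : ℝ) + 1)) * Fintype.card (Equiv.Perm (Fin M)) ≤ (X.card : ℝ) := by
  set Y : Finset (Equiv.Perm (Fin M)) := univ.filter fun σ => Top (lab σ) a j 0
  set Z : Finset (Equiv.Perm (Fin M)) := univ.filter fun σ => Top (lab σ) a j j
  have h1 : (univ : Finset (Equiv.Perm (Fin M))) ⊆ X ∪ (Y ∪ Z) := by
    intro σ _
    obtain ⟨t, ht⟩ := exists_top (lab σ) a j
    simp only [Y, Z, mem_union, mem_filter, mem_univ, true_and]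
    by_cases h1 : t = 0
    · subst h1
      exact Or.inr (Or.inl ht)
    · by_cases h2 : t = j
      · subst h2
        exact Or.inr (Or.inr ht)
      · exact Or.inl (hX σ t (by omega) (by have := ht.1; omega) ht)
  have h2 : Fintype.card (Equiv.Perm (Fin M)) ≤ X.card + (Y.card + Z.card) := by
    rw [← Finset.card_univ]
    exact (Finset.card_le_card h1).trans ((Finset.card_union_le _ _).trans
      (Nat.add_le_add_left (Finset.card_union_le _ _) _))
  have h3 : (n + 1) * Y.card ≤ Fintype.card (Equiv.Perm (Fin M)) :=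
    (Nat.mul_le_mul_right _ (by omega)).trans (top_count ha hb (Nat.zero_le j))
  have h4 : (n + 1) * Z.card ≤ Fintype.card (Equiv.Perm (Fin M)) :=
    (Nat.mul_le_mul_right _ (by omega)).trans (top_count ha hb le_rfl)
  have h5 : (Fintype.card (Equiv.Perm (Fin M)) : ℝ) ≤ X.card + (Y.card + Z.card) := by
    exact_mod_cast h2
  have h6 : ((n : ℝ) + 1) * Y.card ≤ Fintype.card (Equiv.Perm (Fin M)) := by exact_mod_cast h3
  have h7 : ((n : ℝ) + 1) * Z.card ≤ Fintype.card (Equiv.Perm (Fin M)) := by exact_mod_cast h4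
  have hn0 : (0 : ℝ) < (n : ℝ) + 1 := by positivity
  have h8 : (Y.card : ℝ) ≤ Fintype.card (Equiv.Perm (Fin M)) / ((n : ℝ) + 1) := by
    rw [le_div_iff₀ hn0]; linarith
  have h9 : (Z.card : ℝ) ≤ Fintype.card (Equiv.Perm (Fin M)) / ((n : ℝ) + 1) := by
    rw [le_div_iff₀ hn0]; linarith
  have h10 : (1 - 2 / ((n : ℝ) + 1)) * Fintype.card (Equiv.Perm (Fin M)) =
      Fintype.card (Equiv.Perm (Fin M)) - (Fintype.card (Equiv.Perm (Fin M)) / ((n : ℝ) + 1) +
        Fintype.card (Equiv.Perm (Fin M)) / ((n : ℝ) + 1)) := by ring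
  rw [h10]
  linarith

/-! ### The comparison -/

open Classical in
theorem main {f : ℕ → ℕ} {J J' : Set ℕ} {n m : ℕ} (hn : 2 ≤ n)
    (hJ : ∀ j ∈ J, j ∉ J' → n ≤ j ∧ j < m) {G' : GInf}
    (f0 : Vx → G'.V) (hf0 : ∀ u v, (K f J').Adj u v → f0 u ≠ f0 v ∧ ¬ G'.G.Adj (f0 u) (f0 v))
    {e0 e1 : G'.V} (he : e0 ≠ e1) (he' : ¬ G'.G.Adj e0 e1) {F : GInf → ℝ} (hF : IsSpectral F) :
    (1 - 2 / ((n : ℝ) + 1)) * F (Gr f J) ≤ F G' := by
  obtain ⟨M, hM⟩ : ∃ M, ∀ j < m, f j ≤ M :=
    ⟨(range m).sup f, fun j hj => Finset.le_sup (mem_range.2 hj)⟩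
  have hn1 : (3 : ℝ) ≤ (n : ℝ) + 1 := by
    have : (2 : ℝ) ≤ n := by exact_mod_cast hn
    linarith
  have hn2 : 2 / ((n : ℝ) + 1) ≤ 2 / 3 := div_le_div_of_nonneg_left (by norm_num) (by norm_num) hn1
  have hn3 : 0 ≤ 2 / ((n : ℝ) + 1) := by positivity
  let bad : Vx → Prop := fun v => v.1 ∈ J ∧ v.1 ∉ J' ∧ Win (f v.1) v.1 v.2.1
  obtain ⟨A, hAd⟩ : ∃ A : Equiv.Perm (Fin M) → Vx → Prop, ∀ σ v, A σ v ↔
      (bad v → ∃ t, 0 < t ∧ t < v.1 ∧ Top (lab σ) v.2.1 v.1 t) := ⟨_, fun _ _ => Iff.rfl⟩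
  let g : Equiv.Perm (Fin M) → Vx → G'.V := fun σ v =>
    if bad v then (if ∃ t, Even t ∧ Top (lab σ) v.2.1 v.1 t then e0 else e1) else f0 v
  have hflip : ∀ (σ : Equiv.Perm (Fin M)) (j : ℕ) (a a' : ℕ → ℕ) (i i' : Fin 3), bad (j, a, i) →
      bad (j, a', i') → A σ (j, a, i) → A σ (j, a', i') → (∀ t < j, a (t + 1) = a' t) →
      g σ (j, a, i) ≠ g σ (j, a', i') ∧ ¬ G'.G.Adj (g σ (j, a, i)) (g σ (j, a', i')) := by
    intro σ j a a' i i' hb hb' hA hA' hs
    obtain ⟨t, ht0, htj, ht⟩ := (hAd _ _).1 hA hb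
    obtain ⟨t', ht0', htj', ht'⟩ := (hAd _ _).1 hA' hb'
    change t < j at htj
    change t' < j at htj'
    change Top (lab σ) a j t at ht
    change Top (lab σ) a' j t' at ht'
    have hfM : f j ≤ M := hM j (hJ j hb.1 hb.2.1).2
    have h1 : t = t' + 1 := flip σ hb.2.2 hfM hs ht0 ht htj' ht'
    have h2 : (∃ t, Even t ∧ Top (lab σ) a j t) ↔ Even t := by
      constructor
      · rintro ⟨s, hs, hs'⟩
        rwa [top_unique σ hb.2.2 hfM ht hs']
      · intro h
        exact ⟨t, h, ht⟩
    have h3 : (∃ t, Even t ∧ Top (lab σ) a' j t) ↔ Even t' := by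
      constructor
      · rintro ⟨s, hs, hs'⟩
        rwa [top_unique σ hb'.2.2 hfM ht' hs']
      · intro h
        exact ⟨t', h, ht'⟩
    simp only [g, if_pos hb, if_pos hb']
    by_cases h4 : Even t'
    · have h5 : ¬ Even t := by
        rw [h1, Nat.even_add_one, not_not]
        exact h4
      rw [if_neg (fun h => h5 (h2.1 h)), if_pos (h3.2 h4)]
      exact ⟨he.symm, fun h => he' h.symm⟩
    · have h5 : Even t := by
        rw [h1, Nat.even_add_one]
        exact h4
      rw [if_pos (h2.2 h5), if_neg (fun h => h4 (h3.1 h))]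
      exact ⟨he, he'⟩
  refine key (G := Gr f J) (G' := G') (T := Equiv.Perm (Fin M)) A g ?_ (by linarith) (by linarith)
    ?_ hF
  · rintro σ ⟨j, a, i⟩ ⟨j', a', i'⟩ hu hv huv hadj
    have h1 := Gr_adj huv hadj
    have hjj : j = j' := h1.1
    subst hjj
    by_cases hj : j ∈ J'
    · have hb : ¬ bad (j, a, i) := fun h => h.2.1 hj
      have hb' : ¬ bad (j, a', i') := fun h => h.2.1 hj
      simp only [g, if_neg hb, if_neg hb']
      exact hf0 _ _ ⟨rfl, hj, h1.2.2⟩
    · have hb : bad (j, a, i) := ⟨h1.2.1, hj, h1.2.2.1⟩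
      have hb' : bad (j, a', i') := ⟨h1.2.1, hj, h1.2.2.2.1⟩
      rcases h1.2.2.2.2.2 with h2 | h2
      · exact hflip σ j a a' i i' hb hb' hu hv h2
      · have := hflip σ j a' a i' i hb' hb hv hu h2
        exact ⟨this.1.symm, fun h => this.2 h.symm⟩
  · rintro ⟨j, a, i⟩
    by_cases hb : bad (j, a, i)
    · refine interior_count (M := M) hb.2.2 (hM j (hJ j hb.1 hb.2.1).2) (hJ j hb.1 hb.2.1).1 _ ?_
      intro σ t ht0 htj ht
      exact mem_filter.2 ⟨mem_univ _, (hAd _ _).2 fun _ => ⟨t, ht0, htj, ht⟩⟩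
    · rw [Finset.filter_true_of_mem fun σ _ => (hAd _ _).2 fun h => absurd h hb, Finset.card_univ]
      have : (0 : ℝ) ≤ Fintype.card (Equiv.Perm (Fin M)) := by positivity
      nlinarith

/-! ### Closed odd walks -/

open Classical in
/-- a closed odd walk in the complement forces the fractional clique covering number above `2` -/
theorem odd_walk {V : Type} {G : SimpleGraph V} {d : ℕ} (hd : Odd d) (p : ℕ → V)
    (hp : ∀ t < d, Gᶜ.Adj (p t) (p (t + 1))) (hpd : p 0 = p d) {τ : ℝ} (hτ : IsCov G τ) :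
    2 + 1 / (d : ℝ) ≤ τ := by
  obtain ⟨ι, hι, C, w, hC, hw, hcov, rfl⟩ := hτ
  have hd0 : 0 < d := hd.pos
  have hex : ∀ j, ∃ t < d, p t ∉ C j ∧ p (t + 1) ∉ C j := by
    intro j
    by_contra hcon
    push Not at hcon
    have h1 : ∀ t < d, (p (t + 1) ∈ C j ↔ ¬ p t ∈ C j) := by
      intro t ht
      constructor
      · intro h h'
        exact ((SimpleGraph.compl_adj _ _ _).1 (hp t ht)).2 (hC j h' h (hp t ht).ne)
      · exact hcon t ht
    have h2 : ∀ t ≤ d, (p t ∈ C j ↔ (Even t ↔ p 0 ∈ C j)) := by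
      intro t
      induction t with
      | zero => simp
      | succ t ih =>
        intro ht
        rw [h1 t (by omega), ih (by omega), Nat.even_add_one]
        tauto
    have h3 := h2 d le_rfl
    rw [← hpd] at h3
    have h4 : ¬ Even d := Nat.not_even_iff_odd.2 hd
    tauto
  have hmiss : ∀ t < d, (∑ j, if p t ∉ C j ∧ p (t + 1) ∉ C j then w j else 0) ≤ ∑ j, w j - 2 := by
    intro t ht
    have h1 := hcov (p t)
    have h2 := hcov (p (t + 1))
    have h3 : (∑ j, if p t ∈ C j then w j else 0) + (∑ j, if p (t + 1) ∈ C j then w j else 0) +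
        (∑ j, if p t ∉ C j ∧ p (t + 1) ∉ C j then w j else 0) = ∑ j, w j := by
      rw [← Finset.sum_add_distrib, ← Finset.sum_add_distrib]
      refine Finset.sum_congr rfl fun j _ => ?_
      have h4 : ¬ (p t ∈ C j ∧ p (t + 1) ∈ C j) := fun h =>
        ((SimpleGraph.compl_adj _ _ _).1 (hp t ht)).2 (hC j h.1 h.2 (hp t ht).ne)
      by_cases h5 : p t ∈ C j <;> by_cases h6 : p (t + 1) ∈ C j
      · exact absurd ⟨h5, h6⟩ h4
      · simp [h5, h6]
      · simp [h5, h6]
      · simp [h5, h6]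
    have h4 : (∑ j, if p t ∈ C j then w j else 0) = ∑ j, if p t ∈ C j then w j else 0 := rfl
    linarith
  have hsum : ∑ j, w j ≤ ∑ t ∈ range d, ∑ j, if p t ∉ C j ∧ p (t + 1) ∉ C j then w j else 0 := by
    rw [Finset.sum_comm]
    refine Finset.sum_le_sum fun j _ => ?_
    obtain ⟨t, ht, h⟩ := hex j
    calc w j = if p t ∉ C j ∧ p (t + 1) ∉ C j then w j else 0 := by rw [if_pos h]
      _ ≤ _ := Finset.single_le_sum
        (f := fun t => if p t ∉ C j ∧ p (t + 1) ∉ C j then w j else 0)
        (fun t _ => by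
          split_ifs
          · exact hw j
          · exact le_rfl) (mem_range.2 ht)
  have h1 : ∑ j, w j ≤ d * (∑ j, w j - 2) := by
    refine hsum.trans ((Finset.sum_le_sum fun t ht => hmiss t (mem_range.1 ht)).trans ?_)
    rw [Finset.sum_const, card_range, nsmul_eq_mul]
  have h2 : 1 ≤ ∑ j, w j := by
    refine (hcov (p 0)).trans (Finset.sum_le_sum fun j _ => ?_)
    split_ifs
    · exact le_rfl
    · exact hw j
  have hd1 : (0 : ℝ) < d := by exact_mod_cast hd0
  have h3 : 1 / (d : ℝ) ≤ ∑ j, w j - 2 := by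
    rw [div_le_iff₀ hd1]
    linarith
  linarith

/-- if `Fa H ≤ 2` then `Fb H ≤ 2` -/
theorem two {H : GInf} (h : Fa H ≤ 2) : Fb H ≤ 2 := by
  by_cases hc : (H.G)ᶜ.Colorable 2
  · obtain ⟨c⟩ := hc
    have h1 : Cohom H.G (E 2).G := by
      refine ⟨c, fun u v huv hadj => ⟨?_, ?_⟩⟩
      · exact c.valid ((SimpleGraph.compl_adj _ _ _).2 ⟨huv, hadj⟩)
      · exact fun h => h
    have h2 := Fb_spectral.mono H (E 2) h1
    rw [Fb_spectral.one] at h2
    exact_mod_cast h2
  · exfalso
    rw [SimpleGraph.two_colorable_iff_forall_loop_even] at hc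
    push Not at hc
    obtain ⟨u, w, hw⟩ := hc
    rw [Nat.not_even_iff_odd] at hw
    let S : Set H.V := Set.range fun t : Fin (w.length + 1) => w.getVert t
    have hS : Finite S := (Set.finite_range _).to_subtype
    have hmem : ∀ t, w.getVert t ∈ S := by
      intro t
      by_cases ht : t ≤ w.length
      · exact ⟨⟨t, Nat.lt_succ_of_le ht⟩, rfl⟩
      · refine ⟨⟨w.length, Nat.lt_succ_self _⟩, ?_⟩
        simp only
        rw [w.getVert_length, w.getVert_of_length_le (by omega)]
    let p : ℕ → S := fun t => ⟨w.getVert t, hmem t⟩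
    let K' : GInf := GInf.ofFinite (H.G.induce S)
    have h1 : Cohom K'.G H.G :=
      ⟨Subtype.val, fun u v h h' => ⟨fun e => h (Subtype.ext e), h'⟩⟩
    have h2 : P K'.G ≤ Fa H := le_Fa (H := K') hS h1
    have h3 : 2 + 1 / (w.length : ℝ) ≤ P K'.G := by
      refine le_P K'.isCov fun τ hτ => ?_
      refine odd_walk (G := H.G.induce S) hw p ?_ ?_ hτ
      · intro t ht
        have h4 := w.adj_getVert_succ ht
        rw [SimpleGraph.compl_adj] at h4 ⊢
        exact ⟨fun e => h4.1 (congrArg Subtype.val e), h4.2⟩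
      · apply Subtype.ext
        change w.getVert 0 = w.getVert w.length
        rw [w.getVert_length, w.getVert_zero]
    have h4 : 0 < 1 / (w.length : ℝ) := by
      have : (0 : ℝ) < w.length := by exact_mod_cast hw.pos
      positivity
    linarith

/-! ### The sequence -/

theorem Fa_Gr {f : ℕ → ℕ} {n : ℕ} (hn : 2 ≤ n) :
    (1 - 2 / ((n : ℝ) + 1)) * Fa (Gr f {j | n ≤ j}) ≤ 2 := by
  have hn1 : (3 : ℝ) ≤ (n : ℝ) + 1 := by
    have : (2 : ℝ) ≤ n := by exact_mod_cast hn
    linarith
  have hn2 : 2 / ((n : ℝ) + 1) ≤ 2 / 3 := div_le_div_of_nonneg_left (by norm_num) (by norm_num) hn1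
  have hq : 0 < 1 - 2 / ((n : ℝ) + 1) := by linarith
  rw [mul_comm, ← le_div_iff₀ hq]
  refine csSup_le (below_nonempty _) ?_
  rintro x ⟨H, hH, ⟨h, hh⟩, rfl⟩
  let h' : H.V → Vx := h
  obtain ⟨m, hm⟩ : ∃ m, ∀ v, (h' v).1 < m := by
    have := Fintype.ofFinite H.V
    refine ⟨(univ.sup fun v => (h' v).1) + 1, fun v => ?_⟩
    exact Nat.lt_succ_of_le (Finset.le_sup (f := fun v => (h' v).1) (mem_univ v))
  have h1 : Cohom H.G (Gr f {j | n ≤ j ∧ j < m}).G := by
    refine ⟨h', fun u v huv hadj => ?_⟩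
    have h2 := hh u v huv hadj
    have h3 : (K f {j | n ≤ j}).Adj (h' u) (h' v) := Gr_adj h2.1 h2.2
    exact Gr_of ⟨h3.1, ⟨h3.2.1, hm u⟩, h3.2.2⟩
  have h2 := Fb_spectral.mono _ _ h1
  have h3 := main (f := f) (J := {j | n ≤ j ∧ j < m}) (J' := ∅) hn (m := m) (fun j hj _ => hj)
    (G' := E 2) (fun _ => (0 : Fin 2)) (fun u v huv => absurd huv.2.1 (by simp))
    (e0 := (0 : Fin 2)) (e1 := (1 : Fin 2)) (show (0 : Fin 2) ≠ 1 by decide) (fun h => h) Fb_spectral
  rw [Fb_spectral.one, mul_comm, ← le_div_iff₀ hq] at h3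
  refine h2.trans (h3.trans_eq ?_)
  norm_num

theorem Fb_le (f : ℕ → ℕ) (J : Set ℕ) {F : GInf → ℝ} (hF : IsSpectral F) : F (Gr f J) ≤ 3 := by
  have h1 : Cohom (Gr f J).G (E 3).G := by
    refine ⟨fun x : Vx => x.2.2, fun x y hxy hadj => ⟨fun h => ?_, fun h => h⟩⟩
    exact (Gr_adj hxy hadj).2.2.2.2.1 h
  have h2 := hF.mono _ _ h1
  rw [hF.one] at h2
  exact_mod_cast h2

/-- The class of graphs with at most continuum many vertices and finite clique covering number is
not complete under the asymptotic spectrum distance: some Cauchy sequence has no limit. -/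
theorem result : ∃ G : ℕ → GInf,
    (∀ ε : ENNReal, 0 < ε → ∃ N : ℕ, ∀ m ≥ N, ∀ n ≥ N, NotDense.dist (G m) (G n) < ε) ∧
    ¬ ∃ H : GInf, Tendsto (fun n => NotDense.dist (G n) H) atTop (𝓝 0) := by
  obtain ⟨f, hf⟩ := exists_f
  have hq : ∀ n : ℕ, 2 ≤ n → 2 / ((n : ℝ) + 1) ≤ 2 / 3 := by
    intro n hn
    have hn1 : (3 : ℝ) ≤ (n : ℝ) + 1 := by
      have : (2 : ℝ) ≤ n := by exact_mod_cast hn
      linarith
    exact div_le_div_of_nonneg_left (by norm_num) (by norm_num) hn1
  refine ⟨fun n => Gr f {j | n ≤ j}, ?_, ?_⟩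
  · have hcomp : ∀ n m : ℕ, 2 ≤ n → n ≤ m → ∀ F, IsSpectral F →
        |F (Gr f {j | n ≤ j}) - F (Gr f {j | m ≤ j})| ≤ 6 / ((n : ℝ) + 1) := by
      intro n m hn hnm F hF
      have h1 : F (Gr f {j | m ≤ j}) ≤ F (Gr f {j | n ≤ j}) := by
        refine hF.mono _ _ ⟨fun x : Vx => x, fun x y hxy hadj => ?_⟩
        have h2 := Gr_adj hxy hadj
        exact Gr_of ⟨h2.1, hnm.trans h2.2.1, h2.2.2⟩
      obtain ⟨x, hx, hxf, -⟩ := hf m fun _ => ⟨0, by omega⟩
      have h2 : (K f {j | m ≤ j}).Adj _ _ :=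
        edge (f := f) (J := {j | m ≤ j}) (j := m) (le_refl m) hx hxf (i := 0) (i' := 1) (by decide)
      have h3 := Gr_of h2
      have h4 := main (f := f) (J := {j | n ≤ j}) (J' := {j | m ≤ j}) hn (m := m)
        (fun j hj hj' => ⟨hj, not_le.1 hj'⟩) (G' := Gr f {j | m ≤ j}) (fun x => x)
        (fun u v huv => Gr_of huv) h3.1 h3.2 hF
      have h5 := Fb_le f {j | n ≤ j} hF
      have h6 : 0 ≤ 2 / ((n : ℝ) + 1) := by positivity
      have h7 : 2 / ((n : ℝ) + 1) * F (Gr f {j | n ≤ j}) ≤ 2 / ((n : ℝ) + 1) * 3 :=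
        mul_le_mul_of_nonneg_left h5 h6
      have h8 : 2 / ((n : ℝ) + 1) * 3 = 6 / ((n : ℝ) + 1) := by ring
      rw [abs_of_nonneg (by linarith)]
      linarith
    intro ε hε
    obtain ⟨δ, hδ, hδε⟩ : ∃ δ : ℝ, 0 < δ ∧ ENNReal.ofReal δ < ε := by
      rcases eq_or_ne ε ⊤ with rfl | hne
      · exact ⟨1, one_pos, ENNReal.ofReal_lt_top⟩
      · refine ⟨ε.toReal / 2, by have := ENNReal.toReal_pos hε.ne' hne; positivity, ?_⟩
        rw [ENNReal.ofReal_lt_iff_lt_toReal (by positivity) hne]
        have := ENNReal.toReal_pos hε.ne' hne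
        linarith
    obtain ⟨N, hN⟩ := exists_nat_gt (6 / δ)
    have hN' : ∀ n : ℕ, N + 2 ≤ n → 6 / ((n : ℝ) + 1) ≤ δ := by
      intro n hn
      have h1 : (N : ℝ) + 2 ≤ n := by exact_mod_cast hn
      rw [div_lt_iff₀ hδ] at hN
      rw [div_le_iff₀ (by positivity)]
      nlinarith
    refine ⟨N + 2, fun m hm n hn => lt_of_le_of_lt ?_ hδε⟩
    refine iSup₂_le fun F hF => ENNReal.ofReal_le_ofReal ?_
    rcases le_total n m with h | h
    · rw [abs_sub_comm]
      exact (hcomp n m (by omega) h F hF).trans (hN' n hn)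
    · exact (hcomp m n (by omega) h F hF).trans (hN' m hm)
  · rintro ⟨H, hH⟩
    have hlim : ∀ F, IsSpectral F →
        Tendsto (fun n => F (Gr f {j | n ≤ j})) atTop (𝓝 (F H)) := by
      intro F hF
      have h1 : Tendsto (fun n => ENNReal.ofReal |F (Gr f {j | n ≤ j}) - F H|) atTop (𝓝 0) := by
        refine tendsto_of_tendsto_of_tendsto_of_le_of_le tendsto_const_nhds hH
          (fun _ => zero_le) fun n => ?_
        exact le_iSup₂ (f := fun (F : GInf → ℝ) (_ : IsSpectral F) =>
          ENNReal.ofReal |F (Gr f {j | n ≤ j}) - F H|) F hF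
      rw [tendsto_iff_dist_tendsto_zero]
      have h2 := (ENNReal.tendsto_toReal ENNReal.zero_ne_top).comp h1
      simp only [Function.comp_def, ENNReal.toReal_ofReal (abs_nonneg _), ENNReal.toReal_zero] at h2
      simpa [Real.dist_eq] using h2
    have h1 : 3 ≤ Fb H := by
      refine ge_of_tendsto' (hlim Fb Fb_spectral) fun n => Fb_Gr hf fun m => ?_
      exact ⟨max n m, le_max_right _ _, le_max_left n m⟩
    have h2 : Fa H ≤ 2 := by
      have h3 : Tendsto (fun n : ℕ => (1 - 2 / ((n : ℝ) + 1)) * Fa (Gr f {j | n ≤ j})) atTop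
          (𝓝 ((1 - 0) * Fa H)) := by
        refine Tendsto.mul (tendsto_const_nhds.sub ?_) (hlim Fa Fa_spectral)
        exact tendsto_const_nhds.div_atTop
          (tendsto_atTop_add_const_right _ _ tendsto_natCast_atTop_atTop)
      rw [sub_zero, one_mul] at h3
      refine le_of_tendsto h3 ?_
      filter_upwards [eventually_ge_atTop 2] with n hn
      exact Fa_Gr hn
    have h3 := two h2
    linarith

end Pool.Agent.Results.MP_d03f2b_co.NotComplete
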